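import Pool.Agent.X312.CH.AJ

/-!
# A gap law for the kernels of the p-adic Abel-Jacobi maps of the Chow motives `M ⊗ h(X ^ n)`

Let `M` be **any** Chow motive over a number field and let `X` be a smooth projective variety such that
the numerically trivial self-correspondences of the powers of `X` are nilpotent (by Kimura this holds
if the Chow motive of `X` is finite-dimensional, for example for products of curves and abelian
varieties) and such that homological and numerical equivalence agree on the powers of `X` (known for
products of curves and abelian varieties in characteristic zero). Let `ρ(Z)` be the rank of the cycles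
of all codimensions on `Z` modulo numerical equivalence, and `b` the sum of the Betti numbers of `X`.
For all `m ≥ 1`: **the p-adic Abel-Jacobi maps of all the motives** `M ⊗ h(X ^ m)(i)` **are injective, or**

`dim {kernel of the Abel-Jacobi map on CH(M ⊗ h(X ^ n))} ≥ (1 - 4 (m + 3) b ^ (m + 5) log (n + 1) / n) ρ(X ^ n)`

**for all** `n ≥ 1` (all twists together; the left hand side may be infinite). So for a fixed motive `M`
the kernels for the motives `M ⊗ h(X ^ n)` are all zero or their dimensions grow at least like the
numbers `ρ(X ^ n)`, and the injectivity for `M ⊗ h(X ^ m)` follows from one upper bound for the dimension of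
a kernel for one large `n`. (Products with the classes on `X ^ (n - m)` give only `ρ(X ^ (n - m))` elements
of the kernel, which is smaller by an exponential factor.)

The proof. For `Z` a power of `X` let `N(Z)` be the space of the cycles in question on `Y × Z`; the
correspondences between powers of `X` act on these spaces. Modulo numerical equivalence the
self-correspondences of `P = X ^ m` form a finite-dimensional algebra, and the numerically trivial ones
are nilpotent, so that idempotents can be lifted. If `N(P) ≠ 0`, one takes an idempotent correspondence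
`g` on `P` of minimal rank with `g N(P) ≠ 0` and an element `z ≠ 0` of `g N(P)`. The correspondences `x` with
`x z = 0` have a nilpotent compression `g x g`, so the trace of `g x` vanishes, and so `dim N(Z)` is at
least the rank of the trace form `(u, v) ↦ tr (g v u)`; for `Z = X ^ n` this rank is compared with
`ρ(X ^ n)` by the log-convexity of the sequence of the ranks of the intersection forms and by the
symmetric group.
-/

set_option autoImplicit false

open CategoryTheory AlgebraicGeometry

universe u v

namespace Pool.Agent.Results.MP_386e47_ag.AbelJacobiGap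

open Pool.Agent.H914 VarClass Obj WeilCohomology
open Pool.Agent.W492.BB (TheoryData)
open Pool.Agent.X312.CH (CycleTheory AbelJacobi HasIndep ccomp)
open Pool.Agent.Y133.Half (pw cycRank)

variable {k : Type u} [Field k] {𝒱 : VarClass k} {ops : CycleOps 𝒱}
  {W : WeilCohomology.{u, v} ops} {C : TheoryData.{u, 0, 0} 𝒱 ℚ}

/-- The self-correspondence `e` of `Y` is idempotent, so that `(Y, e)` is a Chow motive. -/
def IsProjector (C : TheoryData.{u, 0, 0} 𝒱 ℚ) {Y : 𝒱.Obj} (e : C.A (Y.prod Y)) : Prop :=
  ccomp C e e = e

/-- The cycle `a` on `Y × Z` belongs to the Chow group of the motive `M ⊗ h(Z)`, where `M` is the dual of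
`(Y, e)`: the correspondence `a` from `Y` to `Z` satisfies `a ∘ e = a`. -/
def OnMotive (C : TheoryData.{u, 0, 0} 𝒱 ℚ) {Y Z : 𝒱.Obj} (e : C.A (Y.prod Y))
    (a : C.A (Y.prod Z)) : Prop :=
  ccomp C e a = a

/-- The sum of the Betti numbers of `X`. -/
noncomputable def totalBetti (W : WeilCohomology.{u, v} ops) (X : 𝒱.Obj) : ℕ :=
  Module.finrank W.K (W.H X)

/-- **The gap law for Abel-Jacobi kernels of motives.** Here `pw X m` is the product of `m + 1` copies
of `X`, and `HasIndep S x` says that there are at least `x` linearly independent elements of `S`. -/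
theorem result (𝓣 : CycleTheory W C) (Φ : AbelJacobi 𝓣) (X Y : 𝒱.Obj) (e : C.A (Y.prod Y))
    (_he : IsProjector C e) (hX : ∀ n : ℕ, 𝓣.NumNil (pw X n)) (hD : ∀ n : ℕ, HomEqNum W (pw X n))
    (m : ℕ) :
    (∀ a : C.A (Y.prod (pw X m)), OnMotive C e a → 𝓣.HomTriv a → Φ.aj _ a = 0 → a = 0) ∨
    ∀ n : ℕ, HasIndep {a : C.A (Y.prod (pw X n)) | OnMotive C e a ∧ 𝓣.HomTriv a ∧ Φ.aj _ a = 0}
      ((1 - 4 * (m + 4) * (totalBetti W X : ℝ) ^ (m + 6) * Real.log (n + 2) / (n + 1)) *
        cycRank ops (pw X n)) := by
  rcases Pool.Agent.X312.CH.aj_law Φ X Y e hX hD m with h | h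
  · exact Or.inl fun a h1 h2 h3 => h a ⟨h2, h3⟩ h1
  · right
    intro n
    obtain ⟨N, a, h1, h2, h3⟩ := h n
    exact ⟨N, a, h1, h2, fun i => ⟨(h3 i).2, (h3 i).1⟩⟩

end Pool.Agent.Results.MP_386e47_ag.AbelJacobiGap
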