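import Pool.Agent.X290.Reg.Ex
import Pool.Agent.X290.Reg.Coh
/-!
# Vanishing of classes in Galois cohomology can be tested at one inertia group

Two situations. (1) `p` is a prime such that the field of `p`-th roots of unity has no Galois
extension of `p`-power degree, other than itself, unramified at all finite primes (`p = 2, 3, 5, 7`
for instance), `R` is a continuous representation of `Gal(ℚbar/ℚ)` with coefficients in a Noetherian
local ring `A` of residue characteristic `p`, unramified outside `p`, with semisimplified reduction a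
sum of characters. (2) `K` is a number field, `K'/K` a finite Galois extension with one prime above
`p` and no Galois extension of `p`-power degree unramified at all finite primes, `R` a continuous
representation of `G_K`, unramified outside `p` and residually unipotent on `G_{K'}`. Let `z` be a
continuous cocycle with values in `A^m` which vanishes on the inertia groups at all primes not above
`p`; the `p`-adic Abel-Jacobi map of a variety with good reduction outside `p` takes values in such
classes. Over a field `L` which contains `A`, of characteristic zero in the second case, `z` is a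
coboundary if it is one on an inertia group above `p`.
-/

set_option autoImplicit false

open NumberField Matrix IsLocalRing Polynomial

namespace Pool.Agent.Results.MP_386e47_ag.LocalAtOnePrime

/-- The absolute Galois group of `K`. -/
abbrev G (K : Type) [Field K] : Type := Gal(AlgebraicClosure K/K)

/-- The ring of all algebraic integers. -/
abbrev Z (K : Type) [Field K] : Type := 𝓞 (AlgebraicClosure K)

/-- The field `M` (with all number fields `M'` isomorphic to it) has no Galois extension of degree a
power of `p`, different from `1`, which is unramified at all maximal ideals. -/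
def NoUnramified (p : ℕ) (M : Type) [Field M] : Prop :=
  ∀ (M' L : Type) [Field M'] [NumberField M'] [Field L] [NumberField L] [Algebra M' L]
    [IsGalois M' L], Nonempty (M' ≃+* M) →
    (∀ (Q : Ideal (𝓞 L)) [Q.IsMaximal], Algebra.IsUnramifiedAt (𝓞 M') Q) →
      ∀ k : ℕ, Module.finrank M' L = p ^ k → k = 0

/-- There is at most one maximal ideal above `p`. -/
def OnePrime (p : ℕ) (M : Type) [Field M] : Prop :=
  ∀ P Q : Ideal (𝓞 M), P.IsMaximal → Q.IsMaximal → (p : 𝓞 M) ∈ P → (p : 𝓞 M) ∈ Q → P = Q

/-- The conditions on the field `K'`. -/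
def Base {K : Type} [Field K] (p : ℕ) (K' : IntermediateField K (AlgebraicClosure K)) : Prop :=
  FiniteDimensional K K' ∧ IsGalois K K' ∧ NoUnramified p K' ∧ OnePrime p K'

/-- The conditions on the ring of coefficients. -/
def Coefficients (p : ℕ) (A : Type) [CommRing A] [IsLocalRing A] [TopologicalSpace A] : Prop :=
  IsNoetherianRing A ∧ IsAdic (maximalIdeal A) ∧ (p : A) ∈ maximalIdeal A

variable {K : Type} [Field K] {A : Type} [CommRing A] {m : ℕ}

/-- The inertia group at the prime ideal `P` of the ring of all algebraic integers. -/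
def Inertia (P : Ideal (Z K)) : Set (G K) := {τ | ∀ x : Z K, τ • x - x ∈ P}

/-- The decomposition group at the prime ideal `P` of the ring of all algebraic integers. -/
def Decomposition (P : Ideal (Z K)) : Set (G K) := {g | ∀ x : Z K, g • x ∈ P ↔ x ∈ P}

/-- `R` is continuous and unramified at all primes that do not lie above `p`, and the reduction of
`R g` is unipotent for all `g` which act trivially on `K'`. -/
def Representation [IsLocalRing A] [TopologicalSpace A] (p : ℕ) (R : G K →* GL (Fin m) A)
    (K' : IntermediateField K (AlgebraicClosure K)) : Prop :=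
  Continuous R ∧
  (∀ P : Ideal (Z K), P.IsMaximal → (p : Z K) ∉ P → ∀ τ ∈ Inertia P, R τ = 1) ∧
  ∀ g ∈ K'.fixingSubgroup,
    IsNilpotent ((R g : Matrix (Fin m) (Fin m) A).map (residue A) - 1)

/-- `z` is a continuous cocycle, trivial on the inertia groups at all primes that do not lie
above `p`. -/
def SelmerCocycle [TopologicalSpace A] (p : ℕ) (R : G K →* GL (Fin m) A)
    (z : G K → Fin m → A) : Prop :=
  Continuous z ∧ (∀ g h, z (g * h) = z g + (R g : Matrix (Fin m) (Fin m) A) *ᵥ z h) ∧
  ∀ P : Ideal (Z K), P.IsMaximal → (p : Z K) ∉ P → ∀ τ ∈ Inertia P, z τ = 0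

/-- On `D`, over `L`, the cocycle `z` is the coboundary of the vector `v`. -/
def Coboundary (R : G K →* GL (Fin m) A) (z : G K → Fin m → A) {L : Type} [Field L] [Algebra A L]
    (v : Fin m → L) (D : Set (G K)) : Prop :=
  ∀ g ∈ D, (fun i => algebraMap A L (z g i)) =
    (R g : Matrix (Fin m) (Fin m) A).map (algebraMap A L) *ᵥ v - v

/-- A cocycle that is a coboundary on the decomposition group at `P` is a coboundary. -/
def InjectiveAtDecomposition (R : G K →* GL (Fin m) A) (z : G K → Fin m → A)
    (P : Ideal (Z K)) : Prop :=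
  ∀ (L : Type) [Field L] [Algebra A L] (v : Fin m → L),
    Coboundary R z v (Decomposition P) → Coboundary R z v Set.univ

/-- A cocycle that is a coboundary on the inertia group at `P` is a coboundary, in
characteristic zero. -/
def InjectiveAtInertia (R : G K →* GL (Fin m) A) (z : G K → Fin m → A)
    (P : Ideal (Z K)) : Prop :=
  ∀ (L : Type) [Field L] [CharZero L] [Algebra A L] (v : Fin m → L),
    Coboundary R z v (Inertia P) → ∃ w : Fin m → L, Coboundary R z w Set.univ

/-- The `p`-th roots of unity generate a number field without Galois extensions of `p`-power degree,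
other than itself, unramified at all maximal ideals. -/
def Regular (p : ℕ) : Prop :=
  ∀ (F L : Type) [Field F] [NumberField F] [IsCyclotomicExtension {p} ℚ F] [Field L]
    [NumberField L] [Algebra F L] [IsGalois F L],
    (∀ (Q : Ideal (𝓞 L)) [Q.IsMaximal], Algebra.IsUnramifiedAt (𝓞 F) Q) →
      ∀ k : ℕ, Module.finrank F L = p ^ k → k = 0

/-- `R` is continuous and unramified at all primes that do not lie above `p`, and the characteristic
polynomials of its reduction are those of a sum of characters with values in an extension of the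
residue field. -/
def SumOfCharacters [IsLocalRing A] [TopologicalSpace A] (p : ℕ) (R : G ℚ →* GL (Fin m) A) : Prop :=
  Continuous R ∧
  (∀ P : Ideal (Z ℚ), P.IsMaximal → (p : Z ℚ) ∉ P → ∀ τ ∈ Inertia P, R τ = 1) ∧
  ∃ (k : Type) (_ : Field k) (_ : Algebra (ResidueField A) k) (χ : Fin m → (G ℚ →* kˣ)), ∀ g,
    (((R g : Matrix (Fin m) (Fin m) A).map (residue A)).map
      (algebraMap (ResidueField A) k)).charpoly = ∏ i, (X - C ((χ i g : kˣ) : k))

/-- A cocycle that is a coboundary on the inertia group at `P` is a coboundary. -/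
def TestedAtInertia (R : G K →* GL (Fin m) A) (z : G K → Fin m → A) (P : Ideal (Z K)) : Prop :=
  ∀ (L : Type) [Field L] [Algebra A L] (v : Fin m → L),
    Coboundary R z v (Inertia P) → Coboundary R z v Set.univ

/-- The fields generated by roots of unity of order `3`, `4`, `5`, `12` (for every prime `p`) and
`7` (for `p = 7`). -/
def Example (p : ℕ) (M : Type) [Field M] [NumberField M] : Prop :=
  IsCyclotomicExtension {3} ℚ M ∨ IsCyclotomicExtension {4} ℚ M ∨ IsCyclotomicExtension {5} ℚ M ∨
    IsCyclotomicExtension {12} ℚ M ∨ (p = 7 ∧ IsCyclotomicExtension {7} ℚ M)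

omit [CommRing A] in
/-- The theorem. -/
theorem result :
    (∀ p : ℕ, p.Prime → Regular p →
      ∀ (m : ℕ) (A : Type) [CommRing A] [IsLocalRing A] [TopologicalSpace A], Coefficients p A →
      ∀ (R : G ℚ →* GL (Fin m) A) (z : G ℚ → Fin m → A), SumOfCharacters p R →
        SelmerCocycle p R z → ∀ P : Ideal (Z ℚ), P.IsMaximal → (p : Z ℚ) ∈ P →
        TestedAtInertia R z P) ∧
    (∀ (p : ℕ) (K : Type) [Field K] [NumberField K]
      (K' : IntermediateField K (AlgebraicClosure K)), p.Prime → Base p K' →
      ∀ (m : ℕ) (A : Type) [CommRing A] [IsLocalRing A] [TopologicalSpace A], Coefficients p A →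
      ∀ (R : G K →* GL (Fin m) A) (z : G K → Fin m → A), Representation p R K' →
        SelmerCocycle p R z → ∀ P : Ideal (Z K), P.IsMaximal → (p : Z K) ∈ P →
        InjectiveAtDecomposition R z P ∧ InjectiveAtInertia R z P) ∧
    (Regular 2 ∧ Regular 3 ∧ Regular 5 ∧ Regular 7) ∧
    ∀ p : ℕ, p.Prime → ∀ (M : Type) [Field M] [NumberField M], Example p M → NoUnramified p M := by
  refine ⟨?_, ?_, ⟨Pool.Agent.X290.Reg.noUnr2, Pool.Agent.X290.Reg.noUnr3,
    Pool.Agent.X290.Reg.noUnr5, Pool.Agent.X290.Reg.noUnr7⟩, ?_⟩
  · rintro p hp hNU m A _ _ _ ⟨_, hA, hpA⟩ R z ⟨hR, hur, hres⟩ ⟨hz, hzc, hzur⟩ P hP hpP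
    have hpf : Fact p.Prime := ⟨hp⟩
    have h1 : ∀ g, ∃ h ∈ Inertia P, R h = R g ∧ z h = z g := fun g =>
      Pool.Agent.X290.Reg.coh_main2 hNU hA hpA R hR hur hres z hz hzc hzur hP hpP g
    intro L _ _ v hv g _
    obtain ⟨h, hh, e1, e2⟩ := h1 g
    rw [← e1, ← e2]
    exact hv h hh
  · rintro p K _ _ K' hp ⟨_, _, hNU, hone⟩ m A _ _ _ ⟨_, hA, hpA⟩ R z ⟨hR, hur, hres⟩
      ⟨hz, hzc, hzur⟩ P hP hpP
    have hpf : Fact p.Prime := ⟨hp⟩
    have e : IntermediateField.fixedField K'.fixingSubgroup = K' :=
      InfiniteGalois.fixedField_fixingSubgroup K'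
    have hUn : K'.fixingSubgroup.Normal :=
      (InfiniteGalois.normal_iff_isGalois K').2 inferInstance
    have hUo : IsOpen (K'.fixingSubgroup : Set Gal(AlgebraicClosure K/K)) :=
      (InfiniteGalois.isOpen_iff_finite K').2 inferInstance
    have h1 := Pool.Agent.X290.Reg.coh_mainU K'.fixingSubgroup hUo
      (by
        show Pool.Agent.X290.Reg.NoUnrF p (IntermediateField.fixedField K'.fixingSubgroup)
        rw [e]; exact hNU)
      (by
        show Pool.Agent.X290.Reg.OnePrime p (IntermediateField.fixedField K'.fixingSubgroup)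
        rw [e]; exact hone) hA hpA R hR hur hres z hz hzc hzur hP hpP
    have h2 : ∀ g, ∃ d ∈ Decomposition P, R d = R g ∧ z d = z g := h1.2
    refine ⟨?_, ?_⟩
    · intro L _ _ v hv g _
      obtain ⟨d, hd, e1, e2⟩ := h2 g
      rw [← e1, ← e2]
      exact hv d hd
    · intro L _ _ _ v hv
      have hfin : Finite (G K ⧸ K'.fixingSubgroup) :=
        Subgroup.quotient_finite_of_isOpen _ hUo
      obtain ⟨w, hw⟩ := Pool.Agent.X290.Reg.cob_of_finite K'.fixingSubgroup
        ((((algebraMap A L).mapMatrix (m := Fin m)).toMonoidHom).comp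
          ((Units.coeHom (Matrix (Fin m) (Fin m) A)).comp R))
        (fun g i => algebraMap A L (z g i)) (fun g h => by
          have h3 := hzc g h
          funext i
          show algebraMap A L (z (g * h) i) = algebraMap A L (z g i) +
            (((R g : Matrix (Fin m) (Fin m) A).map (algebraMap A L)) *ᵥ
              (fun i => algebraMap A L (z h i))) i
          rw [h3, Pi.add_apply, map_add, RingHom.map_mulVec]
          rfl) v (fun u hu => by
          obtain ⟨h, hh, _, e1, e2⟩ := h1.1 u hu
          have h4 := hv h hh
          rw [e1, e2] at h4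
          exact h4)
      exact ⟨w, fun g _ => hw g⟩
  · rintro p hp M _ _ (h | h | h | h | ⟨rfl, h⟩)
    · exact Pool.Agent.X290.Reg.noUnrF3 hp M
    · exact Pool.Agent.X290.Reg.noUnrF4 hp M
    · exact Pool.Agent.X290.Reg.noUnrF5 hp M
    · exact Pool.Agent.X290.Reg.noUnrF12 hp M
    · exact Pool.Agent.X290.Reg.noUnrF7 M

end Pool.Agent.Results.MP_386e47_ag.LocalAtOnePrime
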