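import Pool.Agent.X264.RD.Main

/-!
# The p-adic Abel–Jacobi maps: reduction to rational varieties over `ℚ`
-/

set_option autoImplicit false

open Pool.Agent.X264.RD

namespace Pool.Agent.Results.MP_386e47_ag.RationalVarietiesOverQ

universe u

/-- **Reduction to rational varieties of odd dimension over `ℚ`.** Let `p` be a prime. The `p`-adic
Abel–Jacobi maps `CH(M)^0 → H^1(K, V)` of all Chow motives `M` over all number fields `K` are
injective if and only if, for all `n` and all rational varieties `X` over `ℚ` of dimension `2n - 1`,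
the `p`-adic Abel–Jacobi map `CH^n(X)^0 → H^1(ℚ, H^{2n-1}(X̄, ℚ_p(n)))` is injective. -/
theorem result (T : Sys.{u} ℚ) (hT : T.IsRegulator) (C : T.Motives) (hC : C.IsMotives) :
    (∀ (K : T.Fld) (M : C.Mot K), (C.mdat M).Inj) ↔
      ∀ (X : T.Var T.Q) (n : ℤ), T.rat X → (T.dim X : ℤ) + 1 = 2 * n →
        (T.dat X (2 * n) n).Inj :=
  Sys.motives_iff hT C hC

end Pool.Agent.Results.MP_386e47_ag.RationalVarietiesOverQ
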